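import Mathlib
import Pool.Agent.H33.HotDefs
import Pool.Agent.H33.Hot1

open Set Real

namespace Pool.Agent.Results.MP_1debac_an.Q1
open Pool.Agent.H33.Hot

noncomputable def W : MGraph 5 8 where
  src := ![0, 1, 2, 3, 4, 4, 4, 4]
  tgt := ![1, 2, 3, 0, 0, 1, 2, 3]
  len := fun _ => π / 2
  len_pos := fun _ => by positivity

noncomputable def ph (k : ℝ) : ℝ :=
  4 * k * (sin (k * (π / 2)) / (1 + cos (k * (π / 2)))) * (1 + 3 / (3 * cos (k * (π / 2)) - 2))

lemma ph_lt {k l : ℝ} (hk : 0 < k) (hkl : k < l) (hl : l < 1) (h : 2 < 3 * cos (l * (π / 2))) :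
    ph k < ph l := by
  have hpi : 0 < π / 2 := by positivity
  obtain ⟨c0, c1, s0⟩ := trig hk (hkl.trans hl)
  obtain ⟨c0', c1', s0'⟩ := trig (hk.trans hkl) hl
  have h1 : k * (π / 2) ≤ l * (π / 2) := by nlinarith
  have h2 : l * (π / 2) ≤ π / 2 := by nlinarith
  have h3 : 0 < k * (π / 2) := by positivity
  have hc : cos (l * (π / 2)) ≤ cos (k * (π / 2)) :=
    cos_le_cos_of_nonneg_of_le_pi h3.le (by linarith) h1
  have hs : sin (k * (π / 2)) ≤ sin (l * (π / 2)) :=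
    sin_le_sin_of_le_of_le_pi_div_two (by linarith) h2 h1
  have h4 : 0 < 3 * cos (l * (π / 2)) - 2 := by linarith
  have h5 : 0 < 3 * cos (k * (π / 2)) - 2 := by linarith
  unfold ph
  refine lt_of_lt_of_le (b := 4 * l * (sin (k * (π / 2)) / (1 + cos (k * (π / 2)))) *
    (1 + 3 / (3 * cos (k * (π / 2)) - 2))) (by gcongr) ?_
  have := hk.trans hkl
  gcongr

lemma c3 : 2 < 3 * cos (1 / 3 * (π / 2)) := by
  rw [show 1 / 3 * (π / 2) = π / 6 by ring, cos_pi_div_six]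
  have : (4 / 3 : ℝ) < √3 := lt_sqrt_of_sq_lt (by norm_num)
  linarith

lemma a0 : 0 < ph (1 / 3) := by
  obtain ⟨c0, c1, s0⟩ := trig (k := 1 / 3) (by norm_num) (by norm_num)
  have : 0 < 3 * cos (1 / 3 * (π / 2)) - 2 := by linarith [c3]
  unfold ph; positivity

noncomputable def al : Fin 5 → ℝ := ![0, 0, 0, 0, ph (1 / 3)]

lemma ve {C S : ℝ → ℝ} (hS : S (π / 2) ≠ 0) (x : Fin 5 → ℝ) : VE W al C S x ↔
    x 4 + x 1 + x 3 = 3 * C (π / 2) * x 0 ∧ x 4 + x 0 + x 2 = 3 * C (π / 2) * x 1 ∧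
    x 4 + x 1 + x 3 = 3 * C (π / 2) * x 2 ∧ x 4 + x 0 + x 2 = 3 * C (π / 2) * x 3 ∧
    x 0 + x 1 + x 2 + x 3 - 4 * C (π / 2) * x 4 = S (π / 2) * ph (1 / 3) * x 4 := by
  unfold VE
  simp only [Fin.forall_fin_succ, W, al]
  generalize ph (1 / 3) = a
  simp [Fin.sum_univ_succ]
  field_simp
  refine and_congr ?_ (and_congr ?_ (and_congr ?_ (and_congr ?_ ?_))) <;>
    constructor <;> intro h <;> linarith

lemma key {μ : ℝ} {C S : ℝ → ℝ} (H : CS μ C S) (hS : S (π / 2) ≠ 0) (c0 : 0 < C (π / 2))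
    (h : μ ∈ Spec W al) : 4 * (1 - C (π / 2)) * (1 + 3 * C (π / 2)) =
      S (π / 2) * ph (1 / 3) * (3 * C (π / 2) - 2) := by
  obtain ⟨ψ, h⟩ := h
  obtain ⟨h0, h⟩ := to_VE W H (fun _ => hS) h
  obtain ⟨K0, K1, K2, K3, K4⟩ := (ve hS _).1 h
  set x := fun v => ψ (Sum.inl v)
  change x 4 + x 1 + x 3 = _ * x 0 at K0
  change x 4 + x 0 + x 2 = _ * x 1 at K1
  change x 4 + x 1 + x 3 = _ * x 2 at K2
  change x 4 + x 0 + x 2 = _ * x 3 at K3
  change x 0 + x 1 + x 2 + x 3 - _ * x 4 = _ * x 4 at K4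
  generalize C (π / 2) = c at *
  have a : x 2 = x 0 := by apply mul_left_cancel₀ c0.ne'; linarith
  have b : x 3 = x 1 := by apply mul_left_cancel₀ c0.ne'; linarith
  have d : (x 1 - x 0) * (3 * c + 2) = 0 := by rw [a] at K1; rw [b] at K0; linarith
  have d0 : x 1 = x 0 := sub_eq_zero.1 ((mul_eq_zero.1 d).resolve_right (by linarith))
  have e4 : x 4 = (3 * c - 2) * x 0 := by rw [b, d0] at K0; linarith
  have z0 : x 0 ≠ 0 := by
    intro z0
    apply h0
    funext v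
    fin_cases v <;> simp [a, b, d0, e4, z0]
  apply mul_left_cancel₀ z0
  rw [a, b, d0, e4] at K4
  linear_combination K4

lemma phid {k : ℝ} (hk : 0 < k) (hk1 : k < 1) (h : 2 < 3 * cos (k * (π / 2))) :
    4 * (1 - cos (k * (π / 2))) * (1 + 3 * cos (k * (π / 2))) =
      sin (k * (π / 2)) / k * ph k * (3 * cos (k * (π / 2)) - 2) := by
  obtain ⟨c0, c1, s0⟩ := trig hk hk1
  have : 3 * cos (k * (π / 2)) - 2 ≠ 0 := by linarith
  have cs := sin_sq_add_cos_sq (k * (π / 2))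
  unfold ph
  generalize sin (k * (π / 2)) = s at *
  generalize cos (k * (π / 2)) = c at *
  have e : (1 + 3 / (3 * c - 2)) * (3 * c - 2) = 1 + 3 * c := by
    rw [add_mul, div_mul_cancel₀ _ this]; ring
  rw [mul_assoc (s / k), mul_assoc (4 * k * (s / (1 + c))), e]
  field_simp
  linear_combination (-1) * cs

lemma low {μ : ℝ} (h1 : μ < 1) (h : μ ∈ Spec W al) : μ = (1 / 3) ^ 2 := by
  have hpi : 0 < π / 2 := by positivity
  have ha := a0
  rcases lt_trichotomy μ 0 with h0 | rfl | h0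
  · exfalso
    have hk : 0 < √(-μ) := sqrt_pos.2 (by linarith)
    have e : μ = -√(-μ) ^ 2 := by rw [sq_sqrt (by linarith)]; ring
    rw [e] at h
    have s0 : 0 < sinh (√(-μ) * (π / 2)) / √(-μ) := div_pos (sinh_pos_iff.2 (by positivity)) hk
    have := key (cs_neg hk.ne') s0.ne' (cosh_pos _) h
    have c1 := one_le_cosh (√(-μ) * (π / 2))
    have : 0 < sinh (√(-μ) * (π / 2)) / √(-μ) * ph (1 / 3) * (3 * cosh (√(-μ) * (π / 2)) - 2) :=
      mul_pos (mul_pos s0 ha) (by linarith)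
    nlinarith
  · exfalso
    have := key cs_zero hpi.ne' one_pos h
    have := mul_pos hpi ha
    norm_num at *
    linarith
  · have hk : 0 < √μ := sqrt_pos.2 h0
    have hk1 : √μ < 1 := (sqrt_lt' one_pos).2 (by simpa using h1)
    rw [← sq_sqrt h0.le] at h ⊢
    generalize √μ = k at *
    obtain ⟨c0, c1, s0⟩ := trig hk hk1
    have σ0 : 0 < sin (k * (π / 2)) / k := by positivity
    have e1 := key (cs_pos hk.ne') σ0.ne' c0 h
    have h3 : 2 < 3 * cos (k * (π / 2)) := by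
      by_contra h3
      have : sin (k * (π / 2)) / k * ph (1 / 3) * (3 * cos (k * (π / 2)) - 2) ≤ 0 :=
        mul_nonpos_of_nonneg_of_nonpos (mul_pos σ0 ha).le (by linarith)
      nlinarith
    have e2 := phid hk hk1 h3
    have e3 : ph k = ph (1 / 3) := mul_left_cancel₀ σ0.ne'
      (mul_right_cancel₀ (sub_pos.2 h3).ne' (e2.symm.trans e1))
    rcases lt_trichotomy k (1 / 3) with h4 | h4 | h4
    · exact absurd e3 (ph_lt hk h4 (by norm_num) c3).ne
    · rw [h4]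
    · exact absurd e3 (ph_lt (by norm_num) h4 hk1 h3).ne'

lemma first : (1 / 3 : ℝ) ^ 2 ∈ Spec W al := by
  obtain ⟨c0, c1, s0⟩ := trig (k := 1 / 3) (by norm_num) (by norm_num)
  have σ0 : 0 < sin (1 / 3 * (π / 2)) / (1 / 3) := by positivity
  refine ⟨_, of_VE W (cs_pos (k := 1 / 3) (by norm_num)) (fun _ => σ0.ne')
    (x := ![1, 1, 1, 1, 3 * cos (1 / 3 * (π / 2)) - 2]) (fun h => by simpa using congrFun h 0)
    ((ve σ0.ne' _).2 ?_)⟩
  have := phid (k := 1 / 3) (by norm_num) (by norm_num) c3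
  simp only [Matrix.cons_val]
  refine ⟨by ring, by ring, by ring, by ring, by linear_combination this⟩

noncomputable def xv (θ : ℝ) : Fin 5 → ℝ := ![cos θ, sin θ, -cos θ, -sin θ, 0]

lemma eig (θ : ℝ) : IsEigenfun W al 1 (ps W cos sin (xv θ)) := by
  refine of_VE W cs_one (fun e => by simp [W]) (fun h => ?_) ((ve (by simp) _).2 (by simp [xv]))
  have h1 := congrFun h 0
  have h2 := congrFun h 1
  have := sin_sq_add_cos_sq θ
  simp [xv] at h1 h2
  simp [h1, h2] at this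

lemma le1 (θ : ℝ) (q : Pt W) : ps W cos sin (xv θ) q ≤ 1 := by
  have a := sin_sq_add_cos_sq θ
  refine ps_le W _ (fun v => ?_) (fun e => ?_) q
  · fin_cases v <;> simp [xv] <;>
      linarith [cos_le_one θ, sin_le_one θ, neg_one_le_cos θ, neg_one_le_sin θ]
  · fin_cases e <;> simp [xv, W, abs_cos_le_one, abs_sin_le_one]

theorem result : ∃ (nV nE : ℕ) (Γ : MGraph nV nE) (α : Fin nV → ℝ) (l μ : ℝ), Connected Γ ∧
    α ≠ 0 ∧ IsLeast (Spec Γ α) l ∧ IsLeast (Spec Γ α \ {l}) μ ∧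
    (HotSet Γ α μ).Infinite ∧ HotSet Γ α μ ≠ univ := by
  refine ⟨5, 8, W, al, (1 / 3) ^ 2, 1, ⟨by norm_num, ?_⟩, fun h => a0.ne' (congrFun h 4),
    ⟨first, fun ν h => ?_⟩, ⟨⟨⟨_, eig 0⟩, by norm_num⟩, fun ν h => ?_⟩,
    inf_of W _ 0 fun s => ?_, fun h => ?_⟩
  · have : ∀ v, Relation.EqvGen (fun a b => ∃ e, W.src e = a ∧ W.tgt e = b) 4 v := by
      intro v
      fin_cases v
      · exact .rel _ _ ⟨4, rfl, rfl⟩
      · exact .rel _ _ ⟨5, rfl, rfl⟩
      · exact .rel _ _ ⟨6, rfl, rfl⟩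
      · exact .rel _ _ ⟨7, rfl, rfl⟩
      · exact .refl _
    exact fun v w => .trans _ _ _ (.symm _ _ (this v)) (this w)
  · rcases lt_or_ge ν 1 with h1 | h1
    · exact (low h1 h).ge
    · linarith
  · by_contra h1
    exact h.2 (low (not_le.1 h1) h.1)
  · exact ⟨_, eig s, Or.inl fun q => (le1 s q).trans
      (ps_top W _ 0 s rfl (by simp [xv, W]) (by simp [xv, W])).ge⟩
  · obtain ⟨ψ, hψ, h1⟩ : (Sum.inl 4 : Pt W) ∈ HotSet W al 1 := h ▸ mem_univ _
    obtain ⟨h0, h⟩ := to_VE W cs_one (fun e => by simp [W]) hψ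
    obtain ⟨K0, K1, -, -, K4⟩ := (ve (by simp) _).1 h
    simp only [cos_pi_div_two, sin_pi_div_two, mul_zero, zero_mul, one_mul, sub_zero] at K0 K1 K4
    have z : ψ (Sum.inl 4) * (ph (1 / 3) + 2) = 0 := by linarith
    have z4 : ψ (Sum.inl 4) = 0 := (mul_eq_zero.1 z).resolve_right (by linarith [a0])
    apply h0
    funext v
    rcases h1 with h1 | h1 <;> fin_cases v <;>
      simp only [Fin.reduceFinMk, Pi.zero_apply, Fin.zero_eta, Fin.mk_one] <;>
      linarith [h1 (Sum.inl 0), h1 (Sum.inl 1), h1 (Sum.inl 2), h1 (Sum.inl 3)]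

end Pool.Agent.Results.MP_1debac_an.Q1
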